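import Pool.Agent.Q224.Lenstra

/-!
# MP_d9e015_nt, Q1: the Lenstra (Göbel) sequence is 2-adically integral
-/

namespace Pool.Agent.Results.MP_d9e015_nt.LenstraTwoAdic

/-- If `x 0 = 1` and `x n = (1 + x 0 ^ 2 + ⋯ + x (n-1) ^ 2) / n` for every `n ≥ 1`, then for every
`n` the denominator of `x n` in lowest terms is odd. -/
theorem result (x : ℕ → ℚ) (h0 : x 0 = 1)
    (hrec : ∀ n : ℕ, 1 ≤ n → x n = (1 + ∑ i ∈ Finset.range n, x i ^ 2) / n) (n : ℕ) :
    Odd (x n).den :=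
  Pool.Agent.Q224.Lenstra.main x h0 hrec n

end Pool.Agent.Results.MP_d9e015_nt.LenstraTwoAdic
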